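import Pool.Agent.H699.MX.Defs

/-!
MX-CHN: one step of the chain.
-/

set_option autoImplicit false

open MeasureTheory Finset
open scoped Classical

namespace Pool.Agent.H803.MX.CHN

open Pool.Agent.H699.MX

/-- the failure of the shift forces the point to the right of the smallest value -/
lemma crit_lo {μ : Measure ℝ} {a b : ℝ} (hL : S_LPR) (hG : Good μ a b) {n : ℕ} {S η : ℝ} {T : RT}
    {t : ℝ} (h : Crit μ b n S η T t) : ext a b n T false ≤ t := by
  obtain ⟨hp, -, -, -, h1, -⟩ := hL μ a b hG n T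
  by_contra hcon
  rw [not_le] at hcon
  have i1 := hp false
  have i2 := hp true
  have h2 : (law μ b n T false).real (Set.Ioi t) = 1 := by
    have h3 : law μ b n T false (Set.Iic t) = 0 :=
      measure_mono_null (fun x (hx : x ≤ t) => lt_of_le_of_lt hx hcon) (h1 false)
    have h4 : law μ b n T false (Set.Ioi t) = 1 := by
      have h5 : (Set.Ioi t) = (Set.Iic t)ᶜ := by
        rw [Set.compl_Iic]
      rw [h5, prob_compl_eq_one_iff measurableSet_Iic]
      exact h3
    rw [measureReal_def, h4]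
    simp
  have h6 : (law μ b n T true).real (Set.Ioi (t + S - η)) ≤ 1 := by
    exact measureReal_le_one
  have h7 : (law μ b n T false).real (Set.Ioi t) <
    (law μ b n T true).real (Set.Ioi (t + S - η)) := h
  linarith

/-- the failure of the shift forces the shifted point to the left of the largest value -/
lemma crit_hi {μ : Measure ℝ} {a b : ℝ} (hL : S_LPR) (hG : Good μ a b) {n : ℕ} {S η : ℝ} {T : RT}
    {t : ℝ} (h : Crit μ b n S η T t) : t + S - η < ext a b n T true := by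
  obtain ⟨hp, -, -, -, -, h1⟩ := hL μ a b hG n T
  by_contra hcon
  rw [not_lt] at hcon
  have h3 : law μ b n T true (Set.Ioi (t + S - η)) = 0 :=
    measure_mono_null (fun x (hx : t + S - η < x) => lt_of_le_of_lt hcon hx) (h1 true)
  have h4 : (law μ b n T true).real (Set.Ioi (t + S - η)) = 0 := by
    rw [measureReal_def, h3]
    simp
  have h7 : (law μ b n T false).real (Set.Ioi t) <
    (law μ b n T true).real (Set.Ioi (t + S - η)) := h
  have h8 : 0 ≤ (law μ b n T false).real (Set.Ioi t) := measureReal_nonneg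
  linarith

theorem t_CHN : S_STP → S_CRT → S_ZON → S_JMP → S_LPR → S_CHN := by
  intro hSTP hCRT hZON hJMP hLPR μ a b hG d
  obtain ⟨M1, hS1⟩ := hSTP μ a b hG d
  obtain ⟨M2, hZ1⟩ := hZON μ a b hG d
  refine ⟨max M1 M2, fun S₀ hS₀ => ?_⟩
  obtain ⟨ι, hι, hJ⟩ := hJMP μ a b hG (S₀ / 16) (by positivity)
  refine ⟨ι, hι, fun ρ hρ θ hθ => ?_⟩
  obtain ⟨θz, hθz, hZ⟩ := hZ1 (S₀ / 8) (by positivity)
  obtain ⟨θ', hθ', hS2⟩ := hS1 S₀ hS₀ ρ hρ (min θ θz) (lt_min hθ hθz)
  refine ⟨θ', hθ', fun m hm S hS hDom η e σ α β hη hη8 he he8 hσ hσρ hαβ T hT hSt => ?_⟩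
  obtain ⟨k, c⟩ := T
  obtain ⟨hdens, c0, hc0a, hc0b, hcrit⟩ := hSt
  have hlow := crit_lo hLPR hG hcrit
  have hnn : 0 ≤ ext a b (m + 1) (RT.node k c) false := (hLPR μ a b hG (m + 1) (RT.node k c)).2.1
  obtain ⟨i, w, hw, hcrit1⟩ := hCRT μ a b hG m k c S η c0 (by linarith) (by linarith) hcrit
  obtain ⟨w', hw', hι1, hι2⟩ := hJ w hw
  have hm1 : M1 ≤ m := (le_max_left _ _).trans hm
  have hm2 : M2 ≤ m := (le_max_right _ _).trans hm
  have hTi : (c i).Wd d := hT.2 i
  -- the two points of the support in increasing order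
  obtain ⟨wl, wh, hwl, hwh, hwd, hwlw, hwwh⟩ : ∃ wl wh : ℝ, wl ∈ Spt μ ∧ wh ∈ Spt μ ∧
      wh - wl = |w' - w| ∧ wl ≤ w ∧ w ≤ wh := by
    rcases le_total w w' with h | h
    · exact ⟨w, w', hw, hw', by rw [abs_of_nonneg (by linarith)], le_rfl, h⟩
    · exact ⟨w', w, hw', hw, by rw [abs_of_nonpos (by linarith)]; ring, h, le_rfl⟩
  have hd1 : ι ≤ wh - wl := by rw [hwd]; exact hι1
  have hd2 : wh - wl ≤ S₀ / 16 := by rw [hwd]; exact hι2
  have hlo1 := crit_lo hLPR hG hcrit1
  have hhi1 := crit_hi hLPR hG hcrit1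
  -- step A
  have stepA : ∀ z, wl - β - S ≤ z → z ≤ wh - α - S → ∃ x', |x' - z| ≤ σ + ρ ∧
      slack S (law μ b m (c i) false) (law μ b m (c i) true) x' ≤ min θ θz := by
    intro z hz1 hz2
    obtain ⟨x, w0, hw0, hx1, hx2, hx3, hx4⟩ : ∃ x w0 : ℝ, w0 ∈ Spt μ ∧
        ext a b (m + 1) (RT.node k c) false ≤ x ∧ x + S ≤ ext a b (m + 1) (RT.node k c) true ∧
        slack S (law μ b (m + 1) (RT.node k c) false) (law μ b (m + 1) (RT.node k c) true) x ≤ θ' ∧
        |w0 - x - S - z| ≤ σ := by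
      rcases le_or_gt z (wl - α - S) with h1 | h1
      · obtain ⟨x, y1, y2, y3, y4⟩ := hdens (wl - z - S) (by linarith) (by linarith)
        refine ⟨x, wl, hwl, y2, y3, y4, ?_⟩
        have e1 : wl - x - S - z = -(x - (wl - z - S)) := by ring
        rw [e1, abs_neg]
        exact y1
      · rcases le_or_gt (wh - β - S) z with h2 | h2
        · obtain ⟨x, y1, y2, y3, y4⟩ := hdens (wh - z - S) (by linarith) (by linarith)
          refine ⟨x, wh, hwh, y2, y3, y4, ?_⟩
          have e1 : wh - x - S - z = -(x - (wh - z - S)) := by ring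
          rw [e1, abs_neg]
          exact y1
        · obtain ⟨x, y1, y2, y3, y4⟩ := hdens α le_rfl hαβ
          rw [abs_le] at y1
          rcases le_or_gt 0 (α - x) with h3 | h3
          · refine ⟨x, wl, hwl, y2, y3, y4, ?_⟩
            rw [abs_le]
            constructor <;> linarith [y1.1, y1.2]
          · refine ⟨x, wh, hwh, y2, y3, y4, ?_⟩
            rw [abs_le]
            constructor <;> linarith [y1.1, y1.2]
    obtain ⟨w1, hw1, hs1⟩ := hS2 m hm1 S hS hDom k c hT x hx1 hx2 hx3 i w0 hw0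
    refine ⟨w1 - x - S, ?_, hs1⟩
    rw [abs_le] at hw1 hx4 ⊢
    constructor <;> linarith [hw1.1, hw1.2, hx4.1, hx4.2]
  refine ⟨c i, wl - β - S, wh - α - S, hTi, by linarith, ?_, ?_⟩
  · intro z hz1 hz2
    obtain ⟨x', hx1, hx2⟩ := stepA z hz1 hz2
    have hxθ := hx2.trans (min_le_left _ _)
    have hxz := hx2.trans (min_le_right _ _)
    obtain ⟨z1, z2⟩ := hZ m hm2 S (c i) hTi x' hxz
    have hx1' := abs_le.mp hx1
    refine ⟨x', hx1, ?_, ?_, hxθ⟩
    · by_contra hcon
      rw [not_le] at hcon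
      have g1 : x' < ext a b m (c i) false - S + S₀ / 8 := by
        by_contra h
        exact z1 ⟨not_lt.mp h, hcon⟩
      obtain ⟨x2, k1, k2⟩ := stepA (ext a b m (c i) false - S / 2)
        (by linarith [hx1'.1, hx1'.2]) (by linarith [hx1'.1, hx1'.2])
      rw [abs_le] at k1
      exact (hZ m hm2 S (c i) hTi x2 (k2.trans (min_le_right _ _))).1
        ⟨by linarith [k1.1, k1.2], by linarith [k1.1, k1.2]⟩
    · by_contra hcon
      rw [not_le] at hcon
      have g1 : ext a b m (c i) true - S₀ / 8 < x' := by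
        by_contra h
        exact z2 ⟨by linarith, not_lt.mp h⟩
      obtain ⟨x2, k1, k2⟩ := stepA (ext a b m (c i) true - S / 2)
        (by linarith [hx1'.1, hx1'.2]) (by linarith [hx1'.1, hx1'.2])
      rw [abs_le] at k1
      exact (hZ m hm2 S (c i) hTi x2 (k2.trans (min_le_right _ _))).2
        ⟨by linarith [k1.1, k1.2], by linarith [k1.1, k1.2]⟩
  · exact ⟨w - c0 - S + η, by linarith, by linarith, hcrit1⟩

end Pool.Agent.H803.MX.CHN
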