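import Pool.Agent.H840.MX.Stm

/-!
# The jumping numbers, from the description of the ideals
-/

set_option autoImplicit false

namespace Pool.Agent.H803.MX

open MvPolynomial Pool.Agent.T2H40.MI Pool.Agent.H840.MX

theorem hom_mem {n : ℕ} {u : S} (hu : u.IsHomogeneous n) : u ∈ maxIdeal ^ n := by
  change u ∈ idealOfVars (Fin 3) ℂ ^ n
  rw [mem_pow_idealOfVars_iff]
  intro x hx
  have h1 := hu (mem_support_iff.1 hx)
  have h2 : Finsupp.degree x = Finsupp.weight (1 : Fin 3 → ℕ) x := by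
    rw [Finsupp.degree_eq_weight_one]
    rfl
  rw [h2]
  exact h1.ge

theorem cubic_anti (F : S) {n n' : ℕ} (h : n ≤ n') : cubicIdeal F n' ≤ cubicIdeal F n :=
  iSup_mono fun _ => Ideal.mul_mono_right (Ideal.pow_le_pow_right (by omega))

theorem max_le_cubic (F : S) (n : ℕ) : maxIdeal ^ n ≤ cubicIdeal F n := by
  refine le_iSup_of_le 0 ?_
  simp

section

variable {F : S} {p : Fin 3 → ℂ} {w : AddValuation S ℕ∞}
  (hT : ∀ (n : ℕ) (u : S), u ∈ tangentIdeal F p n ↔ (n : ℕ∞) ≤ w u)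

include hT

theorem max_w (hX : ∀ i, 1 ≤ w (X i)) (k : ℕ) : maxIdeal ^ k ≤ tangentIdeal F p k := by
  induction k with
  | zero =>
    intro u _
    rw [hT]
    simp
  | succ k ih =>
    rw [pow_succ, Ideal.mul_le]
    intro r hr s hs
    have h1 : maxIdeal ≤ tangentIdeal F p 1 := by
      unfold maxIdeal
      rw [Ideal.span_le]
      rintro _ ⟨i, rfl⟩
      exact (hT 1 _).2 (by simpa using hX i)
    have h2 := (hT k r).1 (ih hr)
    have h3 := (hT 1 s).1 (h1 hs)
    rw [hT, AddValuation.map_mul, Nat.cast_add]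
    exact add_le_add h2 h3

theorem cubic_w (hX : ∀ i, 1 ≤ w (X i)) (hwF : w F = 5) (n : ℕ) :
    cubicIdeal F n ≤ tangentIdeal F p n := by
  refine iSup_le fun m => ?_
  rw [Ideal.mul_le]
  intro r hr s hs
  obtain ⟨t, rfl⟩ := Ideal.mem_span_singleton.1 hr
  have h2 := (hT _ s).1 (max_w hT hX _ hs)
  rw [hT, AddValuation.map_mul, AddValuation.map_mul, AddValuation.map_pow, hwF]
  have h3 : (n : ℕ∞) ≤ ((m * 5 : ℕ) : ℕ∞) + ((n - 4 * m : ℕ) : ℕ∞) := by
    rw [← Nat.cast_add]
    exact_mod_cast (by omega : n ≤ m * 5 + (n - 4 * m))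
  refine h3.trans (add_le_add ?_ h2)
  refine le_trans (le_of_eq ?_) (le_add_of_nonneg_right zero_le)
  rw [nsmul_eq_mul]
  push_cast
  rfl

end

theorem floor_same {k c c' : ℝ} (h1 : (⌊k * c⌋₊ : ℝ) ≤ k * c') (h2 : k * c' ≤ k * c) :
    ⌊k * c'⌋₊ = ⌊k * c⌋₊ := by
  have h0 : 0 ≤ k * c' := le_trans (Nat.cast_nonneg _) h1
  rw [Nat.floor_eq_iff h0]
  exact ⟨h1, h2.trans_lt (Nat.lt_floor_add_one _)⟩

theorem jmp : S_JMP := by
  intro F g g5 l P p w hT hC hF hg hg5 hl hl1 hgh hg5h hwl hwg hwg5 hwF hwX hgI hg5I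
  -- membership in the sets
  have hJ : ∀ (u : S) (d e : ℕ) (v : ℕ), u.IsHomogeneous d → (∀ i, u ∈ idealOf {P i} ^ e) →
      w u = v → ∀ c : ℝ, ⌊4 * c⌋₊ - 3 ≤ d → ⌊c⌋₊ - 1 ≤ e → ⌊5 * c⌋₊ - 5 ≤ v →
      u ∈ Jset F P p c := by
    intro u d e v hd he hv c h1 h2 h3
    refine ⟨cubic_anti F h1 (max_le_cubic F d (hom_mem hd)),
      fun i => Ideal.pow_le_pow_right h2 (he i), ?_⟩
    rw [hT, hv]
    exact_mod_cast h3
  ext c
  constructor
  · rintro ⟨hc0, hc⟩
    by_contra hcon
    have hnot1 : ¬ (1 ≤ c ∧ ∃ n : ℕ, 4 * c = n) := fun h => hcon (Or.inl h)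
    have hnot2 : ¬ (11 / 5 ≤ c ∧ ∃ n : ℕ, 5 * c = n) := fun h => hcon (Or.inr h)
    rcases lt_or_ge c 1 with h1 | h1
    · refine hc (c / 2) (by linarith) (by linarith) ?_
      have e1 : ∀ x : ℝ, 0 < x → x < 1 → Jset F P p x = {u | u ∈ cubicIdeal F 0 ∧
          (∀ i, u ∈ idealOf {P i} ^ 0) ∧ u ∈ tangentIdeal F p 0} := by
        intro x hx0 hx1
        have a1 : ⌊4 * x⌋₊ - 3 = 0 := by
          have : ⌊4 * x⌋₊ < 4 := (Nat.floor_lt (by linarith)).2 (by push_cast; linarith)
          omega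
        have a2 : ⌊x⌋₊ - 1 = 0 := by
          have : ⌊x⌋₊ < 1 := (Nat.floor_lt (by linarith)).2 (by push_cast; linarith)
          omega
        have a3 : ⌊5 * x⌋₊ - 5 = 0 := by
          have : ⌊5 * x⌋₊ < 5 := (Nat.floor_lt (by linarith)).2 (by push_cast; linarith)
          omega
        unfold Jset
        rw [a1, a2, a3]
      rw [e1 c hc0 h1, e1 (c / 2) (by linarith) (by linarith)]
    · have h4 : ∀ n : ℕ, 4 * c ≠ n := fun n hn => hnot1 ⟨h1, n, hn⟩
      have hc1 : ∀ n : ℕ, c ≠ n := fun n hn => h4 (4 * n) (by rw [hn]; push_cast; ring)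
      have f4 : (⌊4 * c⌋₊ : ℝ) < 4 * c :=
        lt_of_le_of_ne (Nat.floor_le (by linarith)) (fun h => h4 _ h.symm)
      have f1 : (⌊c⌋₊ : ℝ) < c :=
        lt_of_le_of_ne (Nat.floor_le (by linarith)) (fun h => hc1 _ h.symm)
      have g1 : (1 : ℝ) ≤ ⌊c⌋₊ := by
        have : 1 ≤ ⌊c⌋₊ := Nat.one_le_floor_iff c |>.2 h1
        exact_mod_cast this
      by_cases h5 : ∃ n : ℕ, 5 * c = n
      · obtain ⟨n, hn⟩ := h5
        have hc2 : c < 11 / 5 := lt_of_not_ge fun h => hnot2 ⟨h, n, hn⟩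
        have n1 : n < 11 := by
          have : (n : ℝ) < 11 := by linarith
          exact_mod_cast this
        have n2 : 5 ≤ n := by
          have : (5 : ℝ) ≤ n := by linarith
          exact_mod_cast this
        have n3 : n ≠ 5 := by
          rintro rfl
          exact hc1 1 (by push_cast at hn ⊢; linarith)
        have n4 : n ≠ 10 := by
          rintro rfl
          exact hc1 2 (by push_cast at hn ⊢; linarith)
        obtain ⟨m, rfl⟩ : ∃ m, n = m + 2 := ⟨n - 2, by omega⟩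
        have m1 : (m : ℝ) ≤ 7 := by
          have : m ≤ 7 := by omega
          exact_mod_cast this
        have m2 : (4 : ℝ) ≤ m := by
          have : 4 ≤ m := by omega
          exact_mod_cast this
        push_cast at hn
        have e4 : ⌊4 * c⌋₊ = m := by
          rw [Nat.floor_eq_iff (by linarith)]
          constructor <;> linarith
        have e5 : ⌊5 * c⌋₊ = m + 2 := by
          rw [Nat.floor_eq_iff (by linarith)]
          push_cast
          constructor <;> linarith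
        set c' : ℝ := max (⌊4 * c⌋₊ / 4) ⌊c⌋₊ with hc'
        have c1 : c' < c := max_lt (by linarith) f1
        have c2 : (⌊4 * c⌋₊ : ℝ) / 4 ≤ c' := le_max_left _ _
        have c3 : (⌊c⌋₊ : ℝ) ≤ c' := le_max_right _ _
        have s4 : ⌊4 * c'⌋₊ = ⌊4 * c⌋₊ := floor_same (by linarith) (by linarith)
        have s1 : ⌊c'⌋₊ = ⌊c⌋₊ := by
          have := floor_same (k := 1) (c := c) (c' := c') (by rw [one_mul, one_mul]; exact c3)
            (by linarith)
          rwa [one_mul, one_mul] at this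
        have s5 : ⌊5 * c'⌋₊ ≤ ⌊5 * c⌋₊ := Nat.floor_le_floor (by linarith)
        refine hc c' (by linarith) c1 ?_
        ext u
        unfold Jset
        simp only [Set.mem_ofPred_eq]
        rw [s4, s1]
        constructor
        · rintro ⟨k1, k2, k3⟩
          refine ⟨k1, k2, ?_⟩
          rw [hT] at k3 ⊢
          refine le_trans ?_ k3
          exact_mod_cast (by omega : ⌊5 * c'⌋₊ - 5 ≤ ⌊5 * c⌋₊ - 5)
        · rintro ⟨k1, k2, -⟩
          refine ⟨k1, k2, ?_⟩
          have k4 := cubic_w hT hwX hwF _ k1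
          rw [e4] at k4
          rw [e5]
          have k5 : m + 2 - 5 = m - 3 := by omega
          rw [k5]
          exact k4
      · have f5 : (⌊5 * c⌋₊ : ℝ) < 5 * c :=
          lt_of_le_of_ne (Nat.floor_le (by linarith)) (fun h => h5 ⟨_, h.symm⟩)
        set c' : ℝ := max (max (⌊4 * c⌋₊ / 4) (⌊5 * c⌋₊ / 5)) ⌊c⌋₊ with hc'
        have c1 : c' < c := max_lt (max_lt (by linarith) (by linarith)) f1
        have c2 : (⌊4 * c⌋₊ : ℝ) / 4 ≤ c' := (le_max_left _ _).trans (le_max_left _ _)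
        have c4 : (⌊5 * c⌋₊ : ℝ) / 5 ≤ c' := (le_max_right _ _).trans (le_max_left _ _)
        have c3 : (⌊c⌋₊ : ℝ) ≤ c' := le_max_right _ _
        have s4 : ⌊4 * c'⌋₊ = ⌊4 * c⌋₊ := floor_same (by linarith) (by linarith)
        have s5 : ⌊5 * c'⌋₊ = ⌊5 * c⌋₊ := floor_same (by linarith) (by linarith)
        have s1 : ⌊c'⌋₊ = ⌊c⌋₊ := by
          have := floor_same (k := 1) (c := c) (c' := c') (by rw [one_mul, one_mul]; exact c3)
            (by linarith)
          rwa [one_mul, one_mul] at this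
        refine hc c' (by linarith) c1 ?_
        unfold Jset
        rw [s4, s1, s5]
  · -- the numbers are jumping numbers
    have first : 1 ≤ c → (∃ n : ℕ, 4 * c = n) →
        0 < c ∧ ∀ c', 0 < c' → c' < c → Jset F P p c ≠ Jset F P p c' := by
      rintro h1 ⟨n, hn⟩
      refine ⟨by linarith, fun c' hc0 hcc heq => ?_⟩
      have n1 : 4 ≤ n := by
        have : (4 : ℝ) ≤ n := by linarith
        exact_mod_cast this
      obtain ⟨μ, r, hr, hσ⟩ : ∃ μ r : ℕ, r < 4 ∧ n = 4 * μ + r + 4 :=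
        ⟨(n - 4) / 4, (n - 4) % 4, Nat.mod_lt _ (by norm_num), by omega⟩
      have hrR : (r : ℝ) ≤ 3 := by
        have : r ≤ 3 := by omega
        exact_mod_cast this
      have hr0 : (0 : ℝ) ≤ r := Nat.cast_nonneg r
      have hnR : 4 * c = 4 * μ + r + 4 := by
        rw [hn, hσ]
        push_cast
        ring
      have hhom : (g ^ μ * l ^ r).IsHomogeneous (4 * μ + 1 * r) := (hgh.pow μ).mul (hl1.pow r)
      have hmem : g ^ μ * l ^ r ∈ Jset F P p c' := by
        refine hJ _ (4 * μ + 1 * r) μ (5 * μ + r) hhom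
          (fun i => Ideal.mul_mem_right _ _ (Ideal.pow_mem_pow (hgI i) μ)) ?_ c' ?_ ?_ ?_
        · rw [AddValuation.map_mul, AddValuation.map_pow, AddValuation.map_pow, hwg, hwl,
            nsmul_eq_mul, nsmul_eq_mul, mul_one]
          push_cast
          rw [mul_comm]
        · have : ⌊4 * c'⌋₊ < 4 * μ + r + 4 :=
            (Nat.floor_lt (by linarith)).2 (by push_cast; linarith)
          omega
        · have : ⌊c'⌋₊ < μ + 2 := (Nat.floor_lt (by linarith)).2 (by push_cast; linarith)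
          omega
        · have : ⌊5 * c'⌋₊ < 5 * μ + r + 6 :=
            (Nat.floor_lt (by linarith)).2 (by push_cast; linarith)
          omega
      rw [← heq] at hmem
      have h2 := hmem.1
      have e4 : ⌊4 * c⌋₊ - 3 = 4 * μ + 1 * r + 1 := by
        rw [hn, Nat.floor_natCast]
        omega
      rw [e4] at h2
      have h3 := hC _ _ hhom h2
      rcases hF.dvd_or_dvd h3 with h4 | h4
      · exact hg (hF.dvd_of_dvd_pow h4)
      · exact hl (hF.dvd_of_dvd_pow h4)
    rintro (⟨h1, h2⟩ | ⟨h1, n, hn⟩)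
    · exact first h1 h2
    · have n1 : 11 ≤ n := by
        have : (11 : ℝ) ≤ n := by linarith
        exact_mod_cast this
      obtain ⟨μ, ρ, hρ, hσ⟩ : ∃ μ ρ : ℕ, ρ < 5 ∧ n = 5 * (μ + 1) + ρ + 5 :=
        ⟨(n - 10) / 5, (n - 10) % 5, Nat.mod_lt _ (by norm_num), by omega⟩
      rcases Nat.eq_zero_or_pos ρ with rfl | hρ0
      · refine first (by linarith) ⟨4 * (μ + 2), ?_⟩
        have : 5 * c = 5 * (μ + 1) + 5 := by
          rw [hn, hσ]
          push_cast
          ring
        push_cast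
        linarith
      · obtain ⟨ρ, rfl⟩ : ∃ ρ', ρ = ρ' + 1 := ⟨ρ - 1, by omega⟩
        refine ⟨by linarith, fun c' hc0 hcc heq => ?_⟩
        have hρR : (ρ : ℝ) ≤ 3 := by
          have : ρ ≤ 3 := by omega
          exact_mod_cast this
        have hρ0' : (0 : ℝ) ≤ ρ := Nat.cast_nonneg ρ
        have hnR : 5 * c = 5 * μ + ρ + 11 := by
          rw [hn, hσ]
          push_cast
          ring
        have hhom : (g ^ μ * g5 * l ^ ρ).IsHomogeneous (4 * μ + 5 + 1 * ρ) :=
          ((hgh.pow μ).mul hg5h).mul (hl1.pow ρ)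
        have hw : w (g ^ μ * g5 * l ^ ρ) = ((5 * μ + 5 + ρ : ℕ) : ℕ∞) := by
          rw [AddValuation.map_mul, AddValuation.map_mul, AddValuation.map_pow,
            AddValuation.map_pow, hwg, hwg5, hwl, nsmul_eq_mul, nsmul_eq_mul, mul_one]
          push_cast
          rw [mul_comm]
        have hmem : g ^ μ * g5 * l ^ ρ ∈ Jset F P p c' := by
          refine hJ _ (4 * μ + 5 + 1 * ρ) (μ + 1) (5 * μ + 5 + ρ) hhom (fun i => ?_) hw c' ?_ ?_ ?_
          · rw [pow_succ]
            exact Ideal.mul_mem_right _ _ (Ideal.mul_mem_mul (Ideal.pow_mem_pow (hgI i) μ) (hg5I i))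
          · have : ⌊4 * c'⌋₊ < 4 * μ + 9 + ρ :=
              (Nat.floor_lt (by linarith)).2 (by push_cast; linarith)
            omega
          · have : ⌊c'⌋₊ < μ + 3 := (Nat.floor_lt (by linarith)).2 (by push_cast; linarith)
            omega
          · have : ⌊5 * c'⌋₊ < 5 * μ + ρ + 11 :=
              (Nat.floor_lt (by linarith)).2 (by push_cast; linarith)
            omega
        rw [← heq] at hmem
        have h2 := hmem.2.2
        rw [hT, hw, hn, Nat.floor_natCast] at h2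
        have h3 : n - 5 ≤ 5 * μ + 5 + ρ := by exact_mod_cast h2
        omega

end Pool.Agent.H803.MX
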